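import Mathlib

set_option autoImplicit false

namespace Pool.Agent.P.MP_0f752e_al

open Subgroup

variable {G H : Type} [Group G] [Group H]

/-- conjugate subgroup -/
def cj (g : G) (E : Subgroup G) : Subgroup G := E.map (MulAut.conj g).toMonoidHom

theorem mem_cj {g x : G} {E : Subgroup G} : x ∈ cj g E ↔ g⁻¹ * x * g ∈ E := by
  constructor
  · rintro ⟨y, hy, rfl⟩
    simpa [mul_assoc] using hy
  · intro h
    exact ⟨_, h, by simp [mul_assoc]⟩

theorem conj_mem_cj {g x : G} {E : Subgroup G} (h : x ∈ E) : g * x * g⁻¹ ∈ cj g E := by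
  rw [mem_cj]; simpa [mul_assoc] using h

@[simp] theorem cj_one (E : Subgroup G) : cj 1 E = E := by
  ext x; simp [mem_cj]

theorem cj_mul (g h : G) (E : Subgroup G) : cj (g * h) E = cj g (cj h E) := by
  ext x; simp [mem_cj, mul_assoc]

@[simp] theorem cj_inv_cj (g : G) (E : Subgroup G) : cj g⁻¹ (cj g E) = E := by
  rw [← cj_mul]; simp

@[simp] theorem cj_cj_inv (g : G) (E : Subgroup G) : cj g (cj g⁻¹ E) = E := by
  rw [← cj_mul]; simp

theorem map_cj (f : G →* H) (g : G) (E : Subgroup G) :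
    (cj g E).map f = cj (f g) (E.map f) := by
  unfold cj
  rw [map_map, map_map]
  congr 1
  ext x
  simp

/-- `A` normalises `B` -/
def Nz (A B : Subgroup G) : Prop := ∀ a ∈ A, ∀ b ∈ B, a * b * a⁻¹ ∈ B

theorem Nz.cj_eq {A B : Subgroup G} (h : Nz A B) {a : G} (ha : a ∈ A) : cj a B = B := by
  ext x
  rw [mem_cj]
  constructor
  · intro hx
    simpa [mul_assoc] using h a ha _ hx
  · intro hx
    simpa using h a⁻¹ (A.inv_mem ha) _ hx

theorem nz_iff {A B : Subgroup G} : Nz A B ↔ ∀ a ∈ A, cj a B = B :=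
  ⟨fun h _ ha => h.cj_eq ha, fun h a ha _ hb => h a ha ▸ conj_mem_cj hb⟩

theorem nz_self (A : Subgroup G) : Nz A A := fun _ ha _ hb =>
  A.mul_mem (A.mul_mem ha hb) (A.inv_mem ha)

theorem Nz.mono {A A' B : Subgroup G} (h : Nz A B) (hle : A' ≤ A) : Nz A' B :=
  fun a ha => h a (hle ha)

theorem Nz.inf {A B C : Subgroup G} (h : Nz A B) (h' : Nz A C) : Nz A (B ⊓ C) :=
  fun a ha b hb => ⟨h a ha b hb.1, h' a ha b hb.2⟩

theorem nz_of_normal (A B : Subgroup G) [hB : B.Normal] : Nz A B :=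
  fun a _ b hb => hB.conj_mem b hb a

theorem nz_iff_normal {A B : Subgroup G} (h : B ≤ A) : Nz A B ↔ (B.subgroupOf A).Normal := by
  rw [normal_subgroupOf_iff h]
  exact ⟨fun h' b a hb ha => h' a ha b hb, fun h' a ha b hb => h' b a hb ha⟩

theorem sn_of_nz {A E : Subgroup G} (hE : E.IsSubnormal) (hle : A ≤ E) (h : Nz E A) :
    A.IsSubnormal := IsSubnormal.step A E hle hE ((nz_iff_normal hle).1 h)

theorem Nz.map {A B : Subgroup G} (h : Nz A B) (f : G →* H) : Nz (A.map f) (B.map f) := by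
  rintro _ ⟨a, ha, rfl⟩ _ ⟨b, hb, rfl⟩
  exact ⟨_, h a ha b hb, by simp⟩

/-- the join of the proper normal subgroups of `E` -/
def rad (E : Subgroup G) : Subgroup G := sSup {A | A ≤ E ∧ Nz E A ∧ ¬ E ≤ A}

theorem rad_le (E : Subgroup G) : rad E ≤ E := sSup_le fun _ h => h.1

theorem le_rad {A E : Subgroup G} (h1 : A ≤ E) (h2 : Nz E A) (h3 : ¬ E ≤ A) : A ≤ rad E :=
  le_sSup ⟨h1, h2, h3⟩

/-- perfect subnormal subgroups with a unique maximal normal subgroup -/
structure Atom (E : Subgroup G) : Prop where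
  sn : E.IsSubnormal
  perf : ⁅E, E⁆ = E
  irr : ¬ E ≤ rad E

theorem Atom.ne_bot {E : Subgroup G} (h : Atom E) : ¬ E ≤ ⊥ :=
  fun h' => h.irr (h'.trans bot_le)

/-- the elements that act trivially on `E / rad E` -/
def cen (E : Subgroup G) : Subgroup G where
  carrier := {g | ∀ e ∈ E, g * e * g⁻¹ * e⁻¹ ∈ rad E ∧ g⁻¹ * e * g * e⁻¹ ∈ rad E}
  one_mem' := fun e _ => by simp
  inv_mem' := fun {g} hg e he => by simpa using (hg e he).symm
  mul_mem' := fun {g h} hg hh e he => by
    constructor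
    · have h1 := (hh e he).1
      have h2 := (hg _ (rad_le E h1)).1
      have h3 := (rad E).mul_mem ((rad E).mul_mem h2 h1) (hg e he).1
      have : g * h * e * (g * h)⁻¹ * e⁻¹ = g * (h * e * h⁻¹ * e⁻¹) * g⁻¹ * (h * e * h⁻¹ * e⁻¹)⁻¹ *
          (h * e * h⁻¹ * e⁻¹) * (g * e * g⁻¹ * e⁻¹) := by group
      rw [this]; exact h3
    · have h1 := (hg e he).2
      have h2 := (hh _ (rad_le E h1)).2
      have h3 := (rad E).mul_mem ((rad E).mul_mem h2 h1) (hh e he).2
      have : (g * h)⁻¹ * e * (g * h) * e⁻¹ = h⁻¹ * (g⁻¹ * e * g * e⁻¹) * h * (g⁻¹ * e * g * e⁻¹)⁻¹ *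
          (g⁻¹ * e * g * e⁻¹) * (h⁻¹ * e * h * e⁻¹) := by group
      rw [this]; exact h3

theorem nz_cen (E : Subgroup G) : Nz (cen E) E := by
  intro g hg e he
  have := E.mul_mem (rad_le E (hg e he).1) he
  simpa using this

theorem Atom.not_le_cen {E : Subgroup G} (h : Atom E) : ¬ E ≤ cen E := by
  intro hle
  apply h.irr
  calc E = ⁅E, E⁆ := h.perf.symm
    _ ≤ rad E := commutator_le.2 fun a ha b hb => by
        rw [commutatorElement_def]; exact (hle ha b hb).1

theorem le_cen_of_nz {A E : Subgroup G} (h1 : Nz A E) (h2 : Nz E A) (h3 : ¬ E ≤ A) :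
    A ≤ cen E := by
  have hr : E ⊓ A ≤ rad E :=
    le_rad inf_le_left ((nz_self E).inf h2) fun h => h3 (h.trans inf_le_right)
  have key : ∀ a ∈ A, ∀ e ∈ E, a * e * a⁻¹ * e⁻¹ ∈ rad E := by
    intro a ha e he
    refine hr ⟨E.mul_mem (h1 a ha e he) (E.inv_mem he), ?_⟩
    have := A.mul_mem ha (h2 e he _ (A.inv_mem ha))
    simpa [mul_assoc] using this
  intro a ha e he
  exact ⟨key a ha e he, by simpa using key a⁻¹ (A.inv_mem ha) e he⟩

theorem Atom.le_cen_of_nz {E Y : Subgroup G} (hE : Atom E) (h2 : Nz E Y) (h3 : ¬ E ≤ Y) :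
    Y ≤ cen E := by
  have key : ∀ K : Subgroup G, K.IsSubnormal → E ≤ K → Y ⊓ K ≤ cen E → Y ≤ cen E := by
    intro K hK
    induction hK with
    | top => intro _ h; simpa using h
    | step L K hle _ hN ih =>
      intro hEL hL
      have hEK : E ≤ K := hEL.trans hle
      have hKL : Nz K L := (nz_iff_normal hle).2 hN
      refine ih hEK ?_
      have hc : ∀ y ∈ Y ⊓ K, ∀ e ∈ E, y * e * y⁻¹ * e⁻¹ ∈ cen E := by
        intro y hy e he
        refine hL ⟨?_, L.mul_mem (hKL y hy.2 e (hEL he)) (L.inv_mem (hEL he))⟩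
        have := Y.mul_mem hy.1 (h2 e he _ (Y.inv_mem hy.1))
        simpa [mul_assoc] using this
      have hn : ∀ y ∈ Y ⊓ K, Nz (cj y E) E := by
        rintro y hy _ ⟨e, he, rfl⟩ b hb
        have h1 := nz_cen E _ (hc y hy e he) _ (nz_self E e he b hb)
        have : (MulAut.conj y).toMonoidHom e * b * ((MulAut.conj y).toMonoidHom e)⁻¹ =
            y * e * y⁻¹ * e⁻¹ * (e * b * e⁻¹) * (y * e * y⁻¹ * e⁻¹)⁻¹ := by
          simp only [MulEquiv.coe_toMonoidHom, MulAut.conj_apply]; group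
        rw [this]; exact h1
      have hle' : ∀ y ∈ Y ⊓ K, E ≤ cj y E := by
        intro y hy
        by_contra hcon
        have h1 : Nz E (cj y E) := by
          intro e he b hb
          rw [mem_cj] at hb ⊢
          have := hn y⁻¹ ((Y ⊓ K).inv_mem hy) _ (conj_mem_cj he) _ hb
          simpa [mul_assoc] using this
        have h4 := Pool.Agent.P.MP_0f752e_al.le_cen_of_nz (hn y hy) h1 hcon
        apply hE.not_le_cen
        intro e he
        have h5 := (cen E).mul_mem ((cen E).inv_mem (hc y hy e he)) (h4 (conj_mem_cj he))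
        have : (y * e * y⁻¹ * e⁻¹)⁻¹ * (y * e * y⁻¹) = e := by group
        rwa [this] at h5
      refine Pool.Agent.P.MP_0f752e_al.le_cen_of_nz ?_ (h2.inf ((nz_self K).mono hEK))
        fun h => h3 (h.trans inf_le_left)
      intro y hy e he
      have := mem_cj.1 (hle' y⁻¹ ((Y ⊓ K).inv_mem hy) he)
      simpa using this
  refine key E hE.sn le_rfl ?_
  exact Pool.Agent.P.MP_0f752e_al.le_cen_of_nz ((nz_self E).mono inf_le_right)
    (h2.inf (nz_self E)) fun h => h3 (h.trans inf_le_left)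

/-- Wielandt's lemma -/
theorem Atom.le_or_le_cen {E A : Subgroup G} (hE : Atom E) (hA : A.IsSubnormal) :
    E ≤ A ∨ A ≤ cen E := by
  induction hA with
  | top => exact Or.inl le_top
  | step L K hle _ hN ih =>
    rcases ih with h | h
    · by_cases hEL : E ≤ L
      · exact Or.inl hEL
      · exact Or.inr (hE.le_cen_of_nz (((nz_iff_normal hle).2 hN).mono h) hEL)
    · exact Or.inr (hle.trans h)

theorem Atom.le_of_not_nz {E A : Subgroup G} (hE : Atom E) (hA : A.IsSubnormal)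
    (h : ¬ Nz A E) : E ≤ A :=
  (hE.le_or_le_cen hA).resolve_right fun h' => h ((nz_cen E).mono h')

theorem Atom.le_or_le {E A B : Subgroup G} (hE : Atom E) (hA : A.IsSubnormal)
    (hB : B.IsSubnormal) (h : E ≤ A ⊔ B) : E ≤ A ∨ E ≤ B := by
  by_contra hcon
  push Not at hcon
  exact hE.not_le_cen (h.trans (sup_le ((hE.le_or_le_cen hA).resolve_left hcon.1)
    ((hE.le_or_le_cen hB).resolve_left hcon.2)))

theorem sn_map (f : G →* H) (hf : f.range.IsSubnormal) {E : Subgroup G} (hE : E.IsSubnormal) :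
    (E.map f).IsSubnormal := by
  have h1 := (hE.map f.rangeRestrict_surjective).trans' hf
  rwa [map_map] at h1

theorem Atom.map {E : Subgroup G} (hE : Atom E) (f : G →* H) (hf : f.range.IsSubnormal)
    (hk : ¬ E ≤ f.ker) : Atom (E.map f) where
  sn := sn_map f hf hE.sn
  perf := by rw [← map_commutator, hE.perf]
  irr := by
    intro hle
    have h1 : rad (E.map f) ≤ (rad E).map f := by
      refine sSup_le ?_
      rintro A ⟨hA1, hA2, hA3⟩
      have h2 : E ⊓ A.comap f ≤ rad E := by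
        refine le_rad inf_le_left ((nz_self E).inf ?_) ?_
        · intro e he b hb
          have := hA2 (f e) ⟨e, he, rfl⟩ (f b) hb
          simpa [mem_comap] using this
        · intro h
          exact hA3 (map_le_iff_le_comap.2 (h.trans inf_le_right))
      intro a ha
      obtain ⟨e, he, rfl⟩ := hA1 ha
      exact ⟨e, h2 ⟨he, ha⟩, rfl⟩
    have h3 : E ⊓ f.ker ≤ rad E :=
      le_rad inf_le_left ((nz_self E).inf (nz_of_normal _ _)) fun h => hk (h.trans inf_le_right)
    apply hE.irr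
    intro e he
    obtain ⟨m, hm, hme⟩ := h1 (hle ⟨e, he, rfl⟩)
    have h4 : e * m⁻¹ ∈ rad E :=
      h3 ⟨E.mul_mem he (E.inv_mem (rad_le E hm)), by simp [hme]⟩
    simpa using (rad E).mul_mem h4 hm

theorem Atom.le_of_map_le {E A : Subgroup G} (hE : Atom E) (f : G →* H) (hk : ¬ E ≤ f.ker)
    (hA : A.IsSubnormal) (h : E.map f ≤ A.map f) : E ≤ A :=
  (hE.le_or_le hA (Normal.isSubnormal inferInstance) (map_le_map_iff.1 h)).resolve_right hk

theorem Atom.eq_of_map_eq {E E' : Subgroup G} (hE : Atom E) (hE' : Atom E') (f : G →* H)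
    (hk : ¬ E ≤ f.ker) (h : E.map f = E'.map f) : E = E' := by
  have h1 := hE.le_of_map_le f hk hE'.sn h.le
  exact le_antisymm h1 (hE'.le_of_map_le f (fun h2 => hk (h1.trans h2)) hE.sn h.ge)

theorem conj_range_sn (g : G) : (MulAut.conj g).toMonoidHom.range.IsSubnormal := by
  rw [MonoidHom.range_eq_top.2 (MulAut.conj g).surjective]; exact IsSubnormal.top

theorem Atom.not_le_conj_ker {E : Subgroup G} (hE : Atom E) (g : G) :
    ¬ E ≤ (MulAut.conj g).toMonoidHom.ker := by
  rw [(MonoidHom.ker_eq_bot_iff _).2 (MulAut.conj g).injective]; exact hE.ne_bot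

theorem Atom.cj {E : Subgroup G} (hE : Atom E) (g : G) : Atom (cj g E) :=
  hE.map _ (conj_range_sn g) (hE.not_le_conj_ker g)

theorem cj_not_le {E K : Subgroup G} [hK : K.Normal] (h : ¬ E ≤ K) (g : G) : ¬ cj g E ≤ K := by
  intro h'
  apply h
  intro e he
  have := hK.conj_mem _ (h' (conj_mem_cj (g := g) he)) g⁻¹
  simpa [mul_assoc] using this

theorem Atom.nz_map_iff {x : Subgroup G} (hx : Atom x) (f : G →* H) (hk : ¬ x ≤ f.ker)
    (T : Subgroup G) : Nz (T.map f) (x.map f) ↔ Nz T x := by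
  refine ⟨fun h => nz_iff.2 fun t ht => ?_, fun h => h.map f⟩
  refine (hx.eq_of_map_eq (hx.cj t) f hk ?_).symm
  rw [map_cj, h.cj_eq ⟨t, ht, rfl⟩]

theorem exists_lift [Finite G] (f : G →* H) {E' : Subgroup H} (hE' : Atom E')
    (hle : E' ≤ f.range) : ∃ E : Subgroup G, Atom E ∧ ¬ E ≤ f.ker ∧ E.map f = E' := by
  obtain ⟨E, ⟨hE1, hE2⟩, hmin⟩ := WellFounded.has_min (wellFounded_lt (α := Subgroup G))
    {E | E.IsSubnormal ∧ E.map f = E'} ⟨E'.comap f, hE'.sn.comap f, map_comap_eq_self hle⟩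
  have key : ∀ A, A ≤ E → Nz E A → A.map f = E' → E ≤ A := by
    intro A h1 h2 h3
    by_contra hcon
    exact hmin A ⟨sn_of_nz hE1 h1 h2, h3⟩ (lt_of_le_of_ne h1 fun h => hcon h.ge)
  refine ⟨E, ⟨hE1, ?_, ?_⟩, ?_, hE2⟩
  · have h1 : ⁅E, E⁆ ≤ E := commutator_le.2 fun a ha b hb => by
      rw [commutatorElement_def]
      exact E.mul_mem (E.mul_mem (E.mul_mem ha hb) (E.inv_mem ha)) (E.inv_mem hb)
    refine le_antisymm h1 (key _ h1 ?_ ?_)
    · refine nz_iff.2 fun e he => ?_
      unfold cj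
      rw [map_commutator]
      have := (nz_self E).cj_eq he
      unfold cj at this
      rw [this]
    · rw [map_commutator, hE2, hE'.perf]
  · intro h
    have h1 : rad E ≤ (rad E').comap f := by
      refine sSup_le ?_
      rintro A ⟨hA1, hA2, hA3⟩
      rw [← map_le_iff_le_comap]
      refine le_rad (hE2 ▸ map_mono hA1) (hE2 ▸ hA2.map f) fun h' => hA3 (key A hA1 hA2 ?_)
      exact le_antisymm (hE2 ▸ map_mono hA1) h'
    apply hE'.irr
    rw [← hE2, map_le_iff_le_comap, hE2]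
    exact h.trans h1
  · intro h
    apply hE'.ne_bot
    rw [← hE2, le_bot_iff, Subgroup.map_eq_bot_iff]
    exact h

theorem Atom.nz_cj [Finite G] {E : Subgroup G} (hE : Atom E) (g : G) :
    Nz (Pool.Agent.P.MP_0f752e_al.cj g E) E := by
  by_contra h
  have h1 := hE.le_of_not_nz (hE.cj g).sn h
  have h2 : E = Pool.Agent.P.MP_0f752e_al.cj g E := by
    refine eq_of_le_of_card_ge h1 (le_of_eq ?_)
    exact (Nat.card_congr (E.equivMapOfInjective _ (MulAut.conj g).injective).toEquiv).symm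
  exact h (h2 ▸ nz_self E)

end Pool.Agent.P.MP_0f752e_al
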