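import Mathlib
import Pool.Agent.P.MP_0f752e_al.Atom

set_option autoImplicit false

namespace Pool.Agent.P.MP_0f752e_al

open Subgroup

variable {G H : Type} [Group G] [Group H]

/-- atoms that move `x` and are moved by `j` -/
def Lam (x j T : Subgroup G) : Prop := Atom T ∧ ¬ Nz T x ∧ ¬ Nz j T

/-- conjugacy under `j` -/
def Rel (j T T' : Subgroup G) : Prop := ∃ h ∈ j, cj h T = T'

theorem Rel.refl (j T : Subgroup G) : Rel j T T := ⟨1, j.one_mem, cj_one T⟩

theorem Rel.symm {j T T' : Subgroup G} (h : Rel j T T') : Rel j T' T := by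
  obtain ⟨a, ha, rfl⟩ := h
  exact ⟨a⁻¹, j.inv_mem ha, cj_inv_cj a T⟩

theorem Rel.trans {j T T' T'' : Subgroup G} (h : Rel j T T') (h' : Rel j T' T'') :
    Rel j T T'' := by
  obtain ⟨a, ha, rfl⟩ := h
  obtain ⟨b, hb, rfl⟩ := h'
  exact ⟨b * a, j.mul_mem hb ha, cj_mul b a T⟩

theorem Rel.cj {j T T' : Subgroup G} (h : Rel j T T') {g : G} (hg : cj g j = j) :
    Rel j (cj g T) (cj g T') := by
  obtain ⟨a, ha, rfl⟩ := h
  refine ⟨g * a * g⁻¹, hg ▸ conj_mem_cj ha, ?_⟩
  rw [← cj_mul, ← cj_mul]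
  congr 1
  group

/-- `w` lists representatives of the `j`-classes of `Lam x j`; there are exactly five -/
structure Frame (x j : Subgroup G) (w : Fin 5 → Subgroup G) : Prop where
  lam : ∀ i, Lam x j (w i)
  inj : ∀ i i', Rel j (w i) (w i') → i = i'
  surj : ∀ T, Lam x j T → ∃ i, Rel j (w i) T

/-- `j'` permutes the five classes and induces every even permutation of them -/
structure Partner (j j' : Subgroup G) (w : Fin 5 → Subgroup G) : Prop where
  alt : ∀ σ ∈ alternatingGroup (Fin 5), ∃ h ∈ j', ∀ i, Rel j (cj h (w i)) (w (σ i))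
  perm : ∀ h ∈ j', ∀ i, ∃ i', Rel j (cj h (w i)) (w i')

/-- some element of `U` moves a marked atom `j` of `x` to an atom that is not its partner -/
def BadIn (U x : Subgroup G) : Prop :=
  ∃ (j : Subgroup G) (w : Fin 5 → Subgroup G) (g : G),
    Atom j ∧ Frame x j w ∧ g ∈ U ∧ cj g j ≠ j ∧ ¬ Partner j (cj g j) w

/-- the class of groups with no bad atom -/
def FF (G : Type) [Group G] : Prop := ∀ x : Subgroup G, Atom x → ¬ BadIn ⊤ x

/-- the class contains the trivial group -/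
theorem ff_trivial [Subsingleton G] : FF G :=
  fun x hx _ => hx.ne_bot (eq_bot_of_subsingleton x).le

theorem BadIn.mono {U U' x : Subgroup G} (h : BadIn U x) (hle : U ≤ U') : BadIn U' x := by
  obtain ⟨j, w, g, h1, h2, h3, h4⟩ := h
  exact ⟨j, w, g, h1, h2, hle h3, h4⟩

theorem Lam.le {x j T : Subgroup G} (h : Lam x j T) (hx : Atom x) : x ≤ T :=
  hx.le_of_not_nz h.1.sn h.2.1

theorem Lam.le' {x j T : Subgroup G} (h : Lam x j T) (hj : j.IsSubnormal) : T ≤ j :=
  h.1.le_of_not_nz hj h.2.2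

section transfer

variable (f : G →* H) (hf : f.range.IsSubnormal) {x : Subgroup G} (hx : Atom x)
  (hk : ¬ x ≤ f.ker)

theorem rel_map_iff {j T T' : Subgroup G} (hT : Atom T) (hT' : Atom T') (hTk : ¬ T ≤ f.ker) :
    Rel (j.map f) (T.map f) (T'.map f) ↔ Rel j T T' := by
  constructor
  · rintro ⟨_, ⟨h, hh, rfl⟩, he⟩
    refine ⟨h, hh, (hT.cj h).eq_of_map_eq hT' f (cj_not_le hTk h) ?_⟩
    rw [map_cj, he]
  · rintro ⟨h, hh, rfl⟩
    exact ⟨f h, ⟨h, hh, rfl⟩, (map_cj f h T).symm⟩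

theorem partner_map_iff {j j' : Subgroup G} {w : Fin 5 → Subgroup G} (hw : ∀ i, Atom (w i))
    (hwk : ∀ i, ¬ w i ≤ f.ker) :
    Partner (j.map f) (j'.map f) (fun i => (w i).map f) ↔ Partner j j' w := by
  have key : ∀ (h : G) i i', Rel (j.map f) (cj (f h) ((w i).map f)) ((w i').map f) ↔
      Rel j (cj h (w i)) (w i') := by
    intro h i i'
    rw [← map_cj]
    exact rel_map_iff f ((hw i).cj h) (hw i') (cj_not_le (hwk i) h)
  constructor
  · rintro ⟨h1, h2⟩
    constructor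
    · intro σ hσ
      obtain ⟨_, ⟨h, hh, rfl⟩, h3⟩ := h1 σ hσ
      exact ⟨h, hh, fun i => (key h i _).1 (h3 i)⟩
    · intro h hh i
      obtain ⟨i', h3⟩ := h2 (f h) ⟨h, hh, rfl⟩ i
      exact ⟨i', (key h i i').1 h3⟩
  · rintro ⟨h1, h2⟩
    constructor
    · intro σ hσ
      obtain ⟨h, hh, h3⟩ := h1 σ hσ
      exact ⟨f h, ⟨h, hh, rfl⟩, fun i => (key h i _).2 (h3 i)⟩
    · rintro _ ⟨h, hh, rfl⟩ i
      obtain ⟨i', h3⟩ := h2 h hh i
      exact ⟨i', (key h i i').2 h3⟩

include hx hk in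
theorem Lam.not_le_ker {j T : Subgroup G} (h : Lam x j T) : ¬ T ≤ f.ker :=
  fun h' => hk ((h.le hx).trans h')

include hf hx hk in
theorem Lam.map {j T : Subgroup G} (h : Lam x j T) : Lam (x.map f) (j.map f) (T.map f) :=
  ⟨h.1.map f hf (h.not_le_ker f hx hk), fun h' => h.2.1 ((hx.nz_map_iff f hk T).1 h'),
    fun h' => h.2.2 ((h.1.nz_map_iff f (h.not_le_ker f hx hk) j).1 h')⟩

include hf in
theorem Lam.lift [Finite G] {j : Subgroup G} (hj : j.IsSubnormal) {T' : Subgroup H}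
    (h : Lam (x.map f) (j.map f) T') : ∃ T, Lam x j T ∧ T.map f = T' := by
  obtain ⟨T, hT, -, rfl⟩ := exists_lift f h.1 ((h.le' (sn_map f hf hj)).trans (map_le_range f j))
  exact ⟨T, ⟨hT, fun h' => h.2.1 (h'.map f), fun h' => h.2.2 (h'.map f)⟩, rfl⟩

include hf hx hk in
theorem frame_map_iff [Finite G] {j : Subgroup G} (hj : j.IsSubnormal)
    {w : Fin 5 → Subgroup G} (hw : ∀ i, Lam x j (w i)) :
    Frame (x.map f) (j.map f) (fun i => (w i).map f) ↔ Frame x j w := by
  constructor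
  · rintro ⟨-, h2, h3⟩
    refine ⟨hw, fun i i' h => h2 i i' ?_, fun T hT => ?_⟩
    · exact (rel_map_iff f (hw i).1 (hw i').1 ((hw i).not_le_ker f hx hk)).2 h
    · obtain ⟨i, hi⟩ := h3 _ (hT.map f hf hx hk)
      exact ⟨i, (rel_map_iff f (hw i).1 hT.1 ((hw i).not_le_ker f hx hk)).1 hi⟩
  · rintro ⟨-, h2, h3⟩
    refine ⟨fun i => (hw i).map f hf hx hk, fun i i' h => h2 i i' ?_, fun T' hT' => ?_⟩
    · exact (rel_map_iff f (hw i).1 (hw i').1 ((hw i).not_le_ker f hx hk)).1 h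
    · obtain ⟨T, hT, rfl⟩ := hT'.lift f hf hj
      obtain ⟨i, hi⟩ := h3 T hT
      exact ⟨i, (rel_map_iff f (hw i).1 hT.1 ((hw i).not_le_ker f hx hk)).2 hi⟩

include hf hx hk in
theorem bad_map_iff [Finite G] : BadIn f.range (x.map f) ↔ BadIn ⊤ x := by
  constructor
  · rintro ⟨j', w', _, hj', hfr, ⟨g, rfl⟩, hne, hnp⟩
    have hle : j' ≤ f.range :=
      hj'.le_of_not_nz hf fun h => hne (h.cj_eq ⟨g, rfl⟩)
    obtain ⟨j, hj, -, rfl⟩ := exists_lift f hj' hle
    choose w hw hw' using fun i => (hfr.lam i).lift f hf hj.sn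
    obtain rfl : w' = fun i => (w i).map f := funext fun i => (hw' i).symm
    refine ⟨j, w, g, hj, (frame_map_iff f hf hx hk hj.sn hw).1 hfr, mem_top g, ?_, ?_⟩
    · intro h
      apply hne
      rw [← map_cj, h]
    · intro h
      apply hnp
      rw [← map_cj]
      exact (partner_map_iff f (fun i => (hw i).1) fun i => (hw i).not_le_ker f hx hk).2 h
  · rintro ⟨j, w, g, hj, hfr, -, hne, hnp⟩
    have hjk : ¬ j ≤ f.ker := fun h =>
      hk ((((hfr.lam 0).le hx).trans ((hfr.lam 0).le' hj.sn)).trans h)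
    refine ⟨j.map f, fun i => (w i).map f, f g, hj.map f hf hjk,
      (frame_map_iff f hf hx hk hj.sn hfr.lam).2 hfr, ⟨g, rfl⟩, ?_, ?_⟩
    · intro h
      apply hne
      refine (hj.eq_of_map_eq (hj.cj g) f hjk ?_).symm
      rw [map_cj, h]
    · intro h
      apply hnp
      rw [← map_cj] at h
      exact (partner_map_iff f (fun i => (hfr.lam i).1)
        fun i => (hfr.lam i).not_le_ker f hx hk).1 h

end transfer

theorem Frame.cj [Finite G] {x j : Subgroup G} {w : Fin 5 → Subgroup G} (hx : Atom x)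
    (hj : Atom j) (h : Frame x j w) (g : G) :
    Frame (cj g x) (cj g j) (fun i => cj g (w i)) :=
  (frame_map_iff _ (conj_range_sn g) hx (hx.not_le_conj_ker g) hj.sn h.lam).2 h

theorem Partner.cj {j j' : Subgroup G} {w : Fin 5 → Subgroup G} (hw : ∀ i, Atom (w i))
    (h : Partner j j' w) (g : G) : Partner (cj g j) (cj g j') (fun i => cj g (w i)) :=
  (partner_map_iff _ hw fun i => (hw i).not_le_conj_ker g).2 h

theorem BadIn.cj [Finite G] {x : Subgroup G} (hx : Atom x) (h : BadIn ⊤ x) (g : G) :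
    BadIn ⊤ (cj g x) :=
  ((bad_map_iff _ (conj_range_sn g) hx (hx.not_le_conj_ker g)).2 h).mono le_top

/-- `g` induces the permutation `σ` of the five classes -/
def Ind (j : Subgroup G) (w : Fin 5 → Subgroup G) (g : G) (σ : Equiv.Perm (Fin 5)) : Prop :=
  cj g j = j ∧ ∀ i, Rel j (cj g (w i)) (w (σ i))

theorem Ind.mul {j : Subgroup G} {w : Fin 5 → Subgroup G} {g h : G} {σ τ : Equiv.Perm (Fin 5)}
    (h1 : Ind j w g σ) (h2 : Ind j w h τ) : Ind j w (g * h) (σ * τ) := by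
  refine ⟨by rw [cj_mul, h2.1, h1.1], fun i => ?_⟩
  rw [cj_mul]
  exact ((h2.2 i).cj h1.1).trans (h1.2 (τ i))

theorem Ind.inv {j : Subgroup G} {w : Fin 5 → Subgroup G} {g : G} {σ : Equiv.Perm (Fin 5)}
    (h1 : Ind j w g σ) : Ind j w g⁻¹ σ⁻¹ := by
  have h0 : cj g⁻¹ j = j := by
    conv_lhs => rw [← h1.1]
    exact cj_inv_cj g j
  refine ⟨h0, fun i => ?_⟩
  have := (h1.2 (σ⁻¹ i)).cj h0
  rw [cj_inv_cj] at this
  simpa using this.symm

theorem exists_three : ∃ σ ∈ alternatingGroup (Fin 5), σ 0 ≠ 0 :=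
  ⟨Equiv.swap 0 1 * Equiv.swap 2 3, by rw [Equiv.Perm.mem_alternatingGroup]; decide, by decide⟩

theorem partner_le {j j' j'' : Subgroup G} {w : Fin 5 → Subgroup G}
    (hinj : ∀ i i', Rel j (w i) (w i') → i = i') (hj' : Atom j') (hj'' : j''.IsSubnormal)
    (hn' : Nz j' j) (hn'' : Nz j'' j) (hp' : Partner j j' w) (hp'' : Partner j j'' w) :
    j' ≤ j'' := by
  by_contra hcon
  have hc := (hj'.le_or_le_cen hj'').resolve_left hcon
  have hex : ∀ g ∈ j', ∃ σ, Ind j w g σ := by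
    intro g hg
    choose s hs using hp'.perm g hg
    have hg0 : cj g⁻¹ j = j := hn'.cj_eq (j'.inv_mem hg)
    have hsi : Function.Injective s := by
      intro a b hab
      have h1 := ((hs a).trans (hab ▸ (hs b).symm)).cj hg0
      rw [cj_inv_cj, cj_inv_cj] at h1
      exact hinj a b h1
    exact ⟨Equiv.ofBijective s (Finite.injective_iff_bijective.1 hsi), hn'.cj_eq hg, hs⟩
  let A : Subgroup G :=
    { carrier := {g | Ind j w g 1 ∧ cj g j' = j'}
      one_mem' := ⟨⟨cj_one j, fun i => by simpa using Rel.refl j (w i)⟩, cj_one j'⟩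
      mul_mem' := fun {a b} ha hb =>
        ⟨by simpa using ha.1.mul hb.1, by rw [cj_mul, hb.2, ha.2]⟩
      inv_mem' := fun {a} ha => ⟨by simpa using ha.1.inv, by
        conv_lhs => rw [← ha.2]
        exact cj_inv_cj a j'⟩ }
  have hA : A ≤ cen j' := by
    refine le_cen_of_nz (nz_iff.2 fun a ha => ha.2) ?_ ?_
    · intro e he a ha
      obtain ⟨σ, hσ⟩ := hex e he
      refine ⟨by simpa using (hσ.mul ha.1).mul hσ.inv, ?_⟩
      rw [cj_mul, cj_mul, (nz_self j').cj_eq (j'.inv_mem he), ha.2, (nz_self j').cj_eq he]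
    · intro h
      obtain ⟨σ, hσ, hσ0⟩ := exists_three
      obtain ⟨g, hg, hg'⟩ := hp'.alt σ hσ
      exact hσ0 (hinj _ _ ((hg' 0).symm.trans ((h hg).1.2 0)))
  apply hj'.not_le_cen
  calc j' = ⁅j', j'⁆ := hj'.perf.symm
    _ ≤ cen j' := by
      refine commutator_le.2 fun a ha b hb => ?_
      obtain ⟨σ, hσ⟩ := hex a ha
      obtain ⟨τ, hτ⟩ := hex b hb
      have h1 := ((hσ.mul hτ).mul hσ.inv).mul hτ.inv
      have h2 : σ * τ * σ⁻¹ * τ⁻¹ ∈ alternatingGroup (Fin 5) := by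
        rw [Equiv.Perm.mem_alternatingGroup]
        simp only [map_mul, Equiv.Perm.sign_inv]
        rcases Int.units_eq_one_or (Equiv.Perm.sign σ) with h | h <;>
          rcases Int.units_eq_one_or (Equiv.Perm.sign τ) with h' | h' <;> simp [h, h']
      obtain ⟨h, hh, hh'⟩ := hp''.alt _ h2
      have h3 : Ind j w h (σ * τ * σ⁻¹ * τ⁻¹) := ⟨hn''.cj_eq hh, hh'⟩
      have h4 : a * b * a⁻¹ * b⁻¹ * h⁻¹ ∈ A := by
        refine ⟨by simpa only [mul_inv_cancel] using h1.mul h3.inv, ?_⟩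
        rw [cj_mul, (nz_cen j').cj_eq (hc (j''.inv_mem hh))]
        exact (nz_self j').cj_eq
          (j'.mul_mem (j'.mul_mem (j'.mul_mem ha hb) (j'.inv_mem ha)) (j'.inv_mem hb))
      rw [commutatorElement_def]
      simpa using (cen j').mul_mem (hA h4) (hc hh)

theorem partner_unique [Finite G] {x j : Subgroup G} {w : Fin 5 → Subgroup G} (hj : Atom j)
    (hfr : Frame x j w) {g g' : G} (hp : Partner j (cj g j) w) (hp' : Partner j (cj g' j) w) :
    cj g j = cj g' j :=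
  le_antisymm
    (partner_le hfr.inj (hj.cj g) (hj.cj g').sn (hj.nz_cj g) (hj.nz_cj g') hp hp')
    (partner_le hfr.inj (hj.cj g') (hj.cj g).sn (hj.nz_cj g') (hj.nz_cj g) hp' hp)

theorem ff_quot [Finite G] (h : FF G) (f : G →* H) (hf : Function.Surjective f) : FF H := by
  intro x' hx' hb
  have hr : f.range = ⊤ := MonoidHom.range_eq_top.2 hf
  obtain ⟨x, hx, hk, rfl⟩ := exists_lift f hx' (hr ▸ le_top)
  exact h x hx ((bad_map_iff f (hr ▸ IsSubnormal.top) hx hk).1 (hr ▸ hb))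

theorem FF.le_ker [Finite G] (h : FF H) (f : G →* H) (hf : Function.Surjective f)
    {x : Subgroup G} (hx : Atom x) (hb : BadIn ⊤ x) : x ≤ f.ker := by
  by_contra hk
  have hr : f.range = ⊤ := MonoidHom.range_eq_top.2 hf
  have hs : f.range.IsSubnormal := hr ▸ IsSubnormal.top
  exact h _ (hx.map f hs hk) (((bad_map_iff f hs hx hk).2 hb).mono le_top)

theorem ff_subdirect [Finite G] {H' : Type} [Group H'] (h : FF H) (h' : FF H') (f : G →* H)
    (f' : G →* H') (hf : Function.Surjective f) (hf' : Function.Surjective f')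
    (hk : f.ker ⊓ f'.ker = ⊥) : FF G := fun _ hx hb =>
  hx.ne_bot (hk ▸ le_inf (h.le_ker f hf hx hb) (h'.le_ker f' hf' hx hb))

theorem Atom.not_le_subtype_ker {U : Subgroup G} {x : Subgroup U} (hx : Atom x) :
    ¬ x ≤ U.subtype.ker := by
  rw [ker_subtype]; exact hx.ne_bot

theorem subtype_range_sn {U : Subgroup G} (hU : U.IsSubnormal) :
    U.subtype.range.IsSubnormal := by
  rw [range_subtype]; exact hU

theorem bad_subtype_iff [Finite G] {U : Subgroup G} (hU : U.IsSubnormal) {x : Subgroup U}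
    (hx : Atom x) : BadIn U (x.map U.subtype) ↔ BadIn ⊤ x := by
  have := bad_map_iff U.subtype (subtype_range_sn hU) hx hx.not_le_subtype_ker
  rwa [range_subtype] at this

theorem ff_normal [Finite G] (h : FF G) (N : Subgroup G) (hN : N.Normal) : FF N :=
  fun _ hx hb => h _ (hx.map _ (subtype_range_sn hN.isSubnormal) hx.not_le_subtype_ker)
    (((bad_subtype_iff hN.isSubnormal hx).2 hb).mono le_top)

theorem exists_bad_of_badIn [Finite G] {U x : Subgroup G} (hU : U.IsSubnormal) (hx : Atom x)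
    (hb : BadIn U x) : ∃ x' : Subgroup U, Atom x' ∧ BadIn ⊤ x' ∧ x'.map U.subtype = x := by
  have hle : x ≤ U.subtype.range := by
    obtain ⟨j, w, g, hj, hfr, hg, hne, -⟩ := hb
    rw [range_subtype]
    exact (((hfr.lam 0).le hx).trans ((hfr.lam 0).le' hj.sn)).trans
      (hj.le_of_not_nz hU fun h => hne (h.cj_eq hg))
  obtain ⟨x', hx', -, rfl⟩ := exists_lift U.subtype hx hle
  exact ⟨x', hx', (bad_subtype_iff hU hx').1 hb, rfl⟩

theorem ff_product [Finite G] (N M : Subgroup G) (hN : N.Normal) (hM : M.Normal) (h1 : FF N)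
    (h2 : FF M) (htop : N ⊔ M = ⊤) : FF G := by
  have key : ∀ U : Subgroup G, U.Normal → FF U → ∀ (x j : Subgroup G) (w : Fin 5 → Subgroup G),
      Atom x → Atom j → Frame x j w → ∀ g ∈ U, cj g j = j ∨ Partner j (cj g j) w := by
    intro U hU hF x j w hx hj hfr g hg
    by_contra hcon
    push Not at hcon
    obtain ⟨x', hx', hb, -⟩ := exists_bad_of_badIn hU.isSubnormal hx
      ⟨j, w, g, hj, hfr, hg, hcon.1, hcon.2⟩
    exact hF x' hx' hb
  rintro x hx ⟨j, w, g, hj, hfr, -, hne, hnp⟩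
  have hg : g ∈ ((N ⊔ M : Subgroup G) : Set G) := by rw [htop]; trivial
  rw [normal_mul] at hg
  obtain ⟨n, hn, m, hm, rfl⟩ := hg
  simp only at hne hnp
  rw [cj_mul] at hne hnp
  by_cases hmj : cj m j = j
  · rw [hmj] at hne hnp
    exact (key N hN h1 x j w hx hj hfr n hn).elim hne hnp
  · have hp := (key M hM h2 x j w hx hj hfr m hm).resolve_left hmj
    have hp' := (key M hM h2 x j w hx hj hfr m⁻¹ (M.inv_mem hm)).resolve_left fun h => hmj (by
      conv_lhs => rw [← h]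
      exact cj_cj_inv m j)
    have hsw : cj m (cj m j) = j := by
      conv_lhs => rw [partner_unique hj hfr hp hp']
      exact cj_cj_inv m j
    have hfr' := hfr.cj hx hj m
    have hq := hp.cj (fun i => (hfr.lam i).1) m
    rcases key N hN h1 _ _ _ (hx.cj m) (hj.cj m) hfr' n hn with h | h
    · rw [h] at hnp
      exact hnp hp
    · exact hne ((partner_unique (hj.cj m) hfr' h hq).trans hsw)

/-- the residual, as in the frozen statement -/
def resid (G : Type) [Group G] : Subgroup G :=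
  ⨅ (H : Type) (_ : Group H) (_ : FF H) (f : G →* H) (_ : Function.Surjective f), f.ker

theorem le_resid [Finite G] {U x : Subgroup G} (hU : U.IsSubnormal) (hx : Atom x)
    (hb : BadIn U x) : x ≤ (resid U).map U.subtype := by
  obtain ⟨x', hx', hb', rfl⟩ := exists_bad_of_badIn hU hx hb
  refine map_mono ?_
  unfold resid
  simp only [le_iInf_iff]
  intro H _ hH f hf
  exact hH.le_ker f hf hx' hb'

theorem resid_le [Finite G] {U x₀ : Subgroup G} (hU : U.IsSubnormal) (hx₀ : Atom x₀)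
    (h : ∀ x, Atom x → BadIn U x → ¬ x₀ ≤ x) : (resid U).map U.subtype ≤ cen x₀ := by
  let K : Subgroup U := ((cen x₀).comap U.subtype).normalCore
  have hK : ∀ x' : Subgroup U, Atom x' → BadIn ⊤ x' → x' ≤ K := by
    intro x' hx' hb a ha b
    have h1 := hx'.cj b
    have h2 := h1.map _ (subtype_range_sn hU) h1.not_le_subtype_ker
    have h3 := (hx₀.le_or_le_cen h2.sn).resolve_left
      (h _ h2 ((bad_subtype_iff hU h1).2 (hb.cj hx' b)))
    exact h3 ⟨_, conj_mem_cj ha, rfl⟩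
  have hF : FF (U ⧸ K) := by
    intro y hy hb
    have hr : (QuotientGroup.mk' K).range = ⊤ :=
      MonoidHom.range_eq_top.2 (QuotientGroup.mk'_surjective K)
    obtain ⟨x, hx, hk, rfl⟩ := exists_lift (QuotientGroup.mk' K) hy (hr ▸ le_top)
    have := hK x hx ((bad_map_iff _ (hr ▸ IsSubnormal.top) hx hk).1 (hr ▸ hb))
    rw [QuotientGroup.ker_mk'] at hk
    exact hk this
  rw [map_le_iff_le_comap]
  refine le_trans ?_ (normalCore_le _)
  have : resid U ≤ (QuotientGroup.mk' K).ker := by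
    unfold resid
    exact iInf_le_of_le (U ⧸ K) (iInf_le_of_le inferInstance (iInf_le_of_le hF
      (iInf_le_of_le (QuotientGroup.mk' K) (iInf_le _ (QuotientGroup.mk'_surjective K)))))
  rwa [QuotientGroup.ker_mk'] at this

theorem resid_ne [Finite G] {U V x₀ : Subgroup G} (hU : U.IsSubnormal) (hV : V.IsSubnormal)
    (hUV : (U ⊔ V).IsSubnormal) (hx₀ : Atom x₀) (hb : BadIn (U ⊔ V) x₀)
    (h1 : ∀ x, Atom x → BadIn U x → ¬ x₀ ≤ x) (h2 : ∀ x, Atom x → BadIn V x → ¬ x₀ ≤ x) :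
    (resid ↥(U ⊔ V)).map (U ⊔ V).subtype ≠
      (resid U).map U.subtype ⊔ (resid V).map V.subtype := by
  intro h
  apply hx₀.not_le_cen
  exact ((le_resid hUV hx₀ hb).trans h.le).trans
    (sup_le (resid_le hU hx₀ h1) (resid_le hV hx₀ h2))

end Pool.Agent.P.MP_0f752e_al
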