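import Mathlib
import Pool.Agent.P.MP_0f752e_al.Cls

set_option autoImplicit false

namespace Pool.Agent.P.MP_0f752e_al

open Subgroup

/-- the alternating group of degree five -/
abbrev A5 : Type := alternatingGroup (Fin 5)

theorem simple_A5 : IsSimpleGroup A5 := alternatingGroup.isSimpleGroup (by simp)

theorem atom_top : Atom (⊤ : Subgroup A5) where
  sn := IsSubnormal.top
  perf := commutator_alternatingGroup_eq_top (by simp)
  irr := by
    have := simple_A5
    intro h
    have h1 : rad (⊤ : Subgroup A5) ≤ ⊥ := by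
      refine sSup_le ?_
      rintro A ⟨-, h2, h3⟩
      have hn : A.Normal := ⟨fun b hb a => h2 a (mem_top a) b hb⟩
      rcases hn.eq_bot_or_eq_top with h | h
      · exact h.le
      · exact absurd h.ge h3
    exact top_ne_bot (le_bot_iff.1 (h.trans h1))

theorem exists_move (a : Fin 5) : ∃ s : A5, s • a ≠ a := by
  have := alternatingGroup.isPretransitive_of_three_le_card (Fin 5) (by simp)
  obtain ⟨b, hb⟩ := exists_ne a
  obtain ⟨s, hs⟩ := MulAction.exists_smul_eq A5 a b
  exact ⟨s, hs ▸ hb⟩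

theorem exists_send (a b : Fin 5) : ∃ s : A5, s • a = b := by
  have := alternatingGroup.isPretransitive_of_three_le_card (Fin 5) (by simp)
  exact MulAction.exists_smul_eq A5 a b

/-- permutational wreath product of `A5` with `H` acting on `X` -/
@[ext] structure Wr (H X : Type) where
  left : X → A5
  right : H

/-- partial functions from `X` to the five points -/
def Fn (X : Type) : Type := X → Option (Fin 5)

instance (X : Type) [Finite X] : Finite (Fn X) := by unfold Fn; infer_instance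

instance (H X : Type) [Finite H] [Finite X] : Finite (Wr H X) :=
  Finite.of_injective (fun w : Wr H X => (w.left, w.right)) fun _ _ h =>
    Wr.ext (congrArg Prod.fst h) (congrArg Prod.snd h)

variable {H X : Type} [Group H] [MulAction H X]

instance : Mul (Wr H X) := ⟨fun a b => ⟨fun x => a.left x * b.left (a.right⁻¹ • x), a.right * b.right⟩⟩
instance : One (Wr H X) := ⟨⟨fun _ => 1, 1⟩⟩
instance : Inv (Wr H X) := ⟨fun a => ⟨fun x => (a.left (a.right • x))⁻¹, a.right⁻¹⟩⟩

@[simp] theorem Wr.mul_left (a b : Wr H X) (x : X) :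
    (a * b).left x = a.left x * b.left (a.right⁻¹ • x) := rfl
@[simp] theorem Wr.mul_right (a b : Wr H X) : (a * b).right = a.right * b.right := rfl
omit [MulAction H X] in
@[simp] theorem Wr.one_left (x : X) : (1 : Wr H X).left x = 1 := rfl
omit [MulAction H X] in
@[simp] theorem Wr.one_right : (1 : Wr H X).right = 1 := rfl
@[simp] theorem Wr.inv_left (a : Wr H X) (x : X) : (a⁻¹).left x = (a.left (a.right • x))⁻¹ := rfl
@[simp] theorem Wr.inv_right (a : Wr H X) : (a⁻¹).right = a.right⁻¹ := rfl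

instance : Group (Wr H X) := Group.ofLeftAxioms
  (fun a b c => Wr.ext (funext fun x => by simp [mul_assoc, mul_smul]) (by simp [mul_assoc]))
  (fun a => Wr.ext (funext fun x => by simp) (by simp))
  (fun a => Wr.ext (funext fun x => by simp) (by simp))

instance : MulAction (Wr H X) (Fn X) where
  smul w φ := fun x => w.left x • φ (w.right⁻¹ • x)
  one_smul φ := by
    funext x
    show (1 : A5) • φ ((1 : H)⁻¹ • x) = φ x
    simp
  mul_smul a b φ := by
    funext x
    show (a.left x * b.left (a.right⁻¹ • x)) • φ ((a.right * b.right)⁻¹ • x) =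
      a.left x • b.left (a.right⁻¹ • x) • φ (b.right⁻¹ • a.right⁻¹ • x)
    rw [mul_smul, mul_inv_rev, mul_smul]

theorem Wr.smul_apply (w : Wr H X) (φ : Fn X) (x : X) :
    (w • φ) x = w.left x • φ (w.right⁻¹ • x) := rfl

variable (H X) in
/-- projection to the top group -/
def top : Wr H X →* H where
  toFun := Wr.right
  map_one' := rfl
  map_mul' _ _ := rfl

@[simp] theorem top_apply (w : Wr H X) : top H X w = w.right := rfl

theorem top_surj : Function.Surjective (top H X) := fun h => ⟨⟨fun _ => 1, h⟩, rfl⟩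

theorem top_range_sn : (top H X).range.IsSubnormal := by
  rw [MonoidHom.range_eq_top.2 top_surj]; exact IsSubnormal.top

variable (H) in
/-- the coordinate subgroup of the base group -/
def Sc (a : X) : Subgroup (Wr H X) where
  carrier := {w | w.right = 1 ∧ ∀ b, b ≠ a → w.left b = 1}
  one_mem' := ⟨rfl, fun _ _ => rfl⟩
  mul_mem' := fun {u v} hu hv => ⟨by simp [hu.1, hv.1], fun b hb => by
    simp [hu.1, hu.2 b hb, hv.2 b hb]⟩
  inv_mem' := fun {u} hu => ⟨by simp [hu.1], fun b hb => by simp [hu.1, hu.2 b hb]⟩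

theorem mem_Sc {a : X} {w : Wr H X} : w ∈ Sc H a ↔ w.right = 1 ∧ ∀ b, b ≠ a → w.left b = 1 :=
  Iff.rfl

theorem Sc_le_ker (a : X) : Sc H a ≤ (top H X).ker := fun _ h => h.1

theorem eq_one_of_inv_conj {K : Type} [Group K] {a b : K} (h : a⁻¹ * b * a = 1) : b = 1 := by
  have : b = a * (a⁻¹ * b * a) * a⁻¹ := by group
  rw [this, h]; simp

theorem cj_Sc (g : Wr H X) (a : X) : cj g (Sc H a) = Sc H (g.right • a) := by
  ext w
  rw [mem_cj, mem_Sc, mem_Sc]
  constructor
  · rintro ⟨h1, h2⟩
    have h3 : w.right = 1 := eq_one_of_inv_conj (a := g.right) (by simpa using h1)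
    refine ⟨h3, fun b hb => ?_⟩
    have := h2 (g.right⁻¹ • b) fun h => hb (by rw [← h]; simp)
    exact eq_one_of_inv_conj (a := g.left b) (by simpa [h3] using this)
  · rintro ⟨h1, h2⟩
    refine ⟨by simp [h1], fun b hb => ?_⟩
    have := h2 (g.right • b) fun h => hb (smul_left_cancel _ h)
    simp [h1, this]

variable (H X) in
/-- the base group -/
def base : (X → A5) →* Wr H X where
  toFun f := ⟨f, 1⟩
  map_one' := rfl
  map_mul' _ _ := Wr.ext (funext fun x => by simp) (by simp)

open Classical in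
variable (H) in
/-- embedding of `A5` in coordinate `a` -/
noncomputable def emb (a : X) : A5 →* Wr H X :=
  (base H X).comp (MonoidHom.mulSingle (fun _ => A5) a)

open Classical in
theorem emb_left_self (a : X) (s : A5) : (emb H a s).left a = s := by
  simp [emb, base]

open Classical in
theorem emb_left_ne {a b : X} (h : b ≠ a) (s : A5) : (emb H a s).left b = 1 := by
  simp [emb, base, Pi.mulSingle_eq_of_ne h]

theorem emb_right (a : X) (s : A5) : (emb H a s).right = 1 := rfl

theorem emb_mem (a : X) (s : A5) : emb H a s ∈ Sc H a := ⟨rfl, fun _ hb => emb_left_ne hb s⟩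

theorem emb_inj (a : X) : Function.Injective (emb H a) := fun s t h => by
  rw [← emb_left_self (H := H) a s, h, emb_left_self]

theorem range_emb (a : X) : (emb H a).range = Sc H a := by
  apply le_antisymm
  · rintro _ ⟨s, rfl⟩
    exact emb_mem a s
  · rintro w ⟨h1, h2⟩
    refine ⟨w.left a, Wr.ext (funext fun b => ?_) h1.symm⟩
    by_cases hb : b = a
    · rw [hb, emb_left_self]
    · rw [emb_left_ne hb, h2 b hb]

theorem nz_ker_Sc (a : X) : Nz (top H X).ker (Sc H a) := nz_iff.2 fun g hg => by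
  have : g.right = 1 := hg
  rw [cj_Sc, this, one_smul]

theorem sn_Sc (a : X) : (Sc H a).IsSubnormal :=
  sn_of_nz (Normal.isSubnormal inferInstance) (Sc_le_ker a) (nz_ker_Sc a)

theorem atom_Sc (a : X) : Atom (Sc H a) := by
  have := atom_top.map (emb H a) (by rw [range_emb]; exact sn_Sc a) (by
    rw [(MonoidHom.ker_eq_bot_iff _).2 (emb_inj a)]; exact atom_top.ne_bot)
  rwa [← MonoidHom.range_eq_map, range_emb] at this

theorem eq_of_Sc_le {a b : X} (h : Sc H a ≤ Sc H b) : a = b := by
  by_contra hab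
  obtain ⟨s, hs⟩ := exists_move 0
  have := (h (emb_mem a s)).2 a hab
  rw [emb_left_self] at this
  rw [this] at hs
  exact hs (one_smul _ _)

theorem Atom.eq_Sc [Finite X] {E : Subgroup (Wr H X)} (hE : Atom E) (hk : E ≤ (top H X).ker) :
    ∃ a, E = Sc H a := by
  classical
  have h1 : ∃ a, E ≤ Sc H a := by
    by_contra hcon
    push Not at hcon
    apply hE.not_le_cen
    intro w hw
    have h2 : w.left ∈ (cen E).comap (base H X) :=
      pi_mem_of_mulSingle_mem _ fun a => by
        have h3 := (hE.le_or_le_cen (sn_Sc a)).resolve_left (hcon a) (emb_mem a (w.left a))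
        have h4 : base H X (Pi.mulSingle a (w.left a)) = emb H a (w.left a) := by
          refine Wr.ext (funext fun b => ?_) rfl
          by_cases hb : b = a
          · rw [hb, emb_left_self]; simp [base]
          · rw [emb_left_ne hb]; simp [base, Pi.mulSingle_eq_of_ne hb]
        rw [mem_comap, h4]
        exact h3
    have h3 : base H X w.left = w := Wr.ext rfl (hk hw).symm
    rw [← h3]
    exact h2
  obtain ⟨a, ha⟩ := h1
  obtain ⟨E', hE', -, rfl⟩ := exists_lift (emb H a) hE (by rwa [range_emb])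
  refine ⟨a, ?_⟩
  rcases hE'.sn.eq_bot_or_top_of_isSimpleGroup simple_A5 with h | h
  · exact absurd h.le hE'.ne_bot
  · rw [h, ← MonoidHom.range_eq_map, range_emb]

theorem not_nz_Sc {T : Subgroup (Wr H X)} {a : X} :
    ¬ Nz T (Sc H a) ↔ ∃ t ∈ T, t.right • a ≠ a := by
  rw [nz_iff]
  push Not
  refine exists_congr fun t => and_congr_right fun _ => ?_
  rw [cj_Sc]
  exact ⟨fun h h' => h (by rw [h']), fun h h' => h (eq_of_Sc_le h'.le)⟩

theorem Sc_smul_ne {a : X} {s : Wr H X} (hs : s ∈ Sc H a) (φ : Fn X) {b : X} (hb : b ≠ a) :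
    (s • φ) b = φ b := by
  rw [Wr.smul_apply, hs.1, hs.2 b hb]; simp

theorem Sc_smul_self {a : X} {s : Wr H X} (hs : s ∈ Sc H a) (φ : Fn X) :
    (s • φ) a = s.left a • φ a := by
  rw [Wr.smul_apply, hs.1]; simp

theorem Sc_moves_iff {a : X} {φ : Fn X} : (∃ s ∈ Sc H a, s • φ ≠ φ) ↔ φ a ≠ none := by
  constructor
  · rintro ⟨s, hs, hne⟩ h
    apply hne
    funext b
    by_cases hb : b = a
    · rw [hb, Sc_smul_self hs, h]; rfl
    · exact Sc_smul_ne hs φ hb
  · intro h
    obtain ⟨c, hc⟩ := Option.ne_none_iff_exists'.1 h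
    obtain ⟨s, hs⟩ := exists_move c
    refine ⟨emb H a s, emb_mem a s, fun h' => hs ?_⟩
    have := congrFun h' a
    rw [Sc_smul_self (emb_mem a s), emb_left_self, hc] at this
    exact Option.some_injective _ this

theorem exists_Sc_send {a : X} {φ φ' : Fn X} (h1 : ∀ b, b ≠ a → φ b = φ' b) (h2 : φ a ≠ none)
    (h3 : φ' a ≠ none) : ∃ s ∈ Sc H a, s • φ = φ' := by
  obtain ⟨c, hc⟩ := Option.ne_none_iff_exists'.1 h2
  obtain ⟨c', hc'⟩ := Option.ne_none_iff_exists'.1 h3
  obtain ⟨s, hs⟩ := exists_send c c'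
  refine ⟨emb H a s, emb_mem a s, funext fun b => ?_⟩
  by_cases hb : b = a
  · rw [hb, Sc_smul_self (emb_mem a s), emb_left_self, hc, hc', ← hs]; rfl
  · rw [Sc_smul_ne (emb_mem a s) φ hb, h1 b hb]

theorem Atom.eq_Sc_of_none [Finite X] (h0 : ∀ E : Subgroup H, ¬ Atom E)
    {E : Subgroup (Wr H X)} (hE : Atom E) : ∃ a, E = Sc H a := by
  refine hE.eq_Sc ?_
  by_contra hk
  exact h0 _ (hE.map _ top_range_sn hk)

theorem flat_of_none [Finite X] (h0 : ∀ E : Subgroup H, ¬ Atom E)
    (A B : Subgroup (Wr H X)) (hA : Atom A) (hB : Atom B) : Nz A B := by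
  obtain ⟨a, rfl⟩ := hA.eq_Sc_of_none h0
  obtain ⟨b, rfl⟩ := hB.eq_Sc_of_none h0
  exact (nz_ker_Sc b).mono (Sc_le_ker a)

theorem Atom.eq_Sc_of_flat [Finite X] (h1 : ∀ A B : Subgroup H, Atom A → Atom B → Nz A B)
    {j T : Subgroup (Wr H X)} (hj : Atom j) (hT : Atom T) (hm : ¬ Nz j T) :
    ∃ a, T = Sc H a := by
  refine hT.eq_Sc ?_
  by_contra hk
  have hjk : ¬ j ≤ (top H X).ker := fun h => hk ((hT.le_of_not_nz hj.sn hm).trans h)
  exact hm ((hT.nz_map_iff _ hk j).1
    (h1 _ _ (hj.map _ top_range_sn hjk) (hT.map _ top_range_sn hk)))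

theorem eq_Sc_of_lam [Finite X] [Finite H]
    (h2 : ∀ x j T : Subgroup H, Atom x → Atom j → ¬ Lam x j T)
    {x j T : Subgroup (Wr H X)} (hx : Atom x) (hj : Atom j) (h : Lam x j T) :
    ∃ a, x = Sc H a := by
  refine hx.eq_Sc ?_
  by_contra hk
  have hjk : ¬ j ≤ (top H X).ker := fun h' => hk (((h.le hx).trans (h.le' hj.sn)).trans h')
  exact h2 _ _ _ (hx.map _ top_range_sn hk) (hj.map _ top_range_sn hjk)
    (h.map _ top_range_sn hx hk)

theorem not_lam_of_flat [Finite X] (h1 : ∀ A B : Subgroup H, Atom A → Atom B → Nz A B)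
    (x j T : Subgroup (Wr H X)) (hx : Atom x) (hj : Atom j) : ¬ Lam x j T := by
  intro h
  obtain ⟨a, rfl⟩ := hj.eq_Sc_of_flat h1 h.1 h.2.2
  obtain ⟨b, rfl⟩ := hx.eq_Sc ((h.le hx).trans (Sc_le_ker a))
  exact h.2.1 ((nz_ker_Sc b).mono (Sc_le_ker a))

end Pool.Agent.P.MP_0f752e_al
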