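import Mathlib
import Pool.Agent.P.MP_0f752e_al.Wr

set_option autoImplicit false

namespace Pool.Agent.P.MP_0f752e_al

open Subgroup

/-- the symmetry group of the square: `(s, k)` is `x ↦ k ± x` -/
def D8 : Type := Bool × Fin 4

instance : DecidableEq D8 := inferInstanceAs (DecidableEq (Bool × Fin 4))
instance : Fintype D8 := inferInstanceAs (Fintype (Bool × Fin 4))
instance : Mul D8 := ⟨fun a b => (xor a.1 b.1, if a.1 then a.2 - b.2 else a.2 + b.2)⟩
instance : One D8 := ⟨(false, 0)⟩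
instance : Inv D8 := ⟨fun a => (a.1, if a.1 then a.2 else -a.2)⟩
instance : Group D8 := Group.ofLeftAxioms (by decide) (by decide) (by decide)
instance : SMul D8 (Fin 4) := ⟨fun a x => if a.1 then a.2 - x else a.2 + x⟩
instance : MulAction D8 (Fin 4) where
  one_smul := by decide
  mul_smul := by decide

/-- element constructor -/
def el (s : Bool) (k : Fin 4) : D8 := (s, k)

/-- subgroup of order two generated by a reflection -/
def Rf (k : Fin 4) : Subgroup D8 where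
  carrier := {d | d = 1 ∨ d = el true k}
  one_mem' := Or.inl rfl
  mul_mem' := fun {a b} => by
    simp only [Set.mem_ofPred_eq]; revert a b k; decide
  inv_mem' := fun {a} => by
    simp only [Set.mem_ofPred_eq]; revert a k; decide

/-- Klein four subgroup containing a reflection -/
def Kl (k : Fin 4) : Subgroup D8 where
  carrier := {d | d = 1 ∨ d = el true k ∨ d = el false 2 ∨ d = el true (k + 2)}
  one_mem' := Or.inl rfl
  mul_mem' := fun {a b} => by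
    simp only [Set.mem_ofPred_eq]; revert a b k; decide
  inv_mem' := fun {a} => by
    simp only [Set.mem_ofPred_eq]; revert a k; decide

/-- the centre -/
def Zc : Subgroup D8 where
  carrier := {d | d = 1 ∨ d = el false 2}
  one_mem' := Or.inl rfl
  mul_mem' := fun {a b} => by
    simp only [Set.mem_ofPred_eq]; revert a b; decide
  inv_mem' := fun {a} => by
    simp only [Set.mem_ofPred_eq]; revert a; decide

theorem mem_Rf {k : Fin 4} {d : D8} : d ∈ Rf k ↔ d = 1 ∨ d = el true k := Iff.rfl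
theorem mem_Kl {k : Fin 4} {d : D8} :
    d ∈ Kl k ↔ d = 1 ∨ d = el true k ∨ d = el false 2 ∨ d = el true (k + 2) := Iff.rfl
theorem mem_Zc {d : D8} : d ∈ Zc ↔ d = 1 ∨ d = el false 2 := Iff.rfl

theorem sn_Rf (k : Fin 4) : (Rf k).IsSubnormal := by
  have h1 : (Kl k).Normal := ⟨fun a ha g => by
    simp only [mem_Kl] at ha ⊢; revert a g k; decide⟩
  refine sn_of_nz h1.isSubnormal (fun a ha => ?_) (fun a ha b hb => ?_)
  · simp only [mem_Kl, mem_Rf] at ha ⊢; clear h1; revert a k; decide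
  · simp only [mem_Kl, mem_Rf] at ha hb ⊢; clear h1; revert a b k; decide

theorem Rf_sup : Rf 1 ⊔ Rf 0 = ⊤ := by
  have hu : el true 1 ∈ Rf 1 ⊔ Rf 0 := mem_sup_left (Or.inr rfl)
  have hp : el true 0 ∈ Rf 1 ⊔ Rf 0 := mem_sup_right (Or.inr rfl)
  have key : ∀ d : D8, ∃ n : Fin 4, d = (el true 1 * el true 0) ^ (n : ℕ) ∨
      d = (el true 1 * el true 0) ^ (n : ℕ) * el true 0 := by decide
  rw [eq_top_iff]
  intro d _
  obtain ⟨n, h | h⟩ := key d
  · rw [h]; exact pow_mem (mul_mem hu hp) _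
  · rw [h]; exact mul_mem (pow_mem (mul_mem hu hp) _) hp

theorem no_atom_D8 (E : Subgroup D8) : ¬ Atom E := by
  intro hE
  have h1 : E ≤ Zc := by
    rw [← hE.perf]
    refine commutator_le.2 fun a _ b _ => ?_
    rw [commutatorElement_def, mem_Zc]
    clear * -
    revert a b; decide
  apply hE.ne_bot
  rw [← hE.perf]
  refine commutator_le.2 fun a ha b hb => ?_
  have ha' := h1 ha
  have hb' := h1 hb
  rw [commutatorElement_def, mem_bot]
  rw [mem_Zc] at ha' hb'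
  clear ha hb
  revert a b; decide

abbrev G2 : Type := Wr D8 (Fin 4)
abbrev I1 : Type := Fn (Fin 4)
abbrev G1 : Type := Wr G2 I1
abbrev I0 : Type := Fn I1
abbrev G0 : Type := Wr G1 I0

/-- projections -/
def p1 : G0 →* G1 := top G1 I0
def p2 : G0 →* G2 := (top G2 I1).comp p1
def p3 : G0 →* D8 := (top D8 (Fin 4)).comp p2

theorem p2_surj : Function.Surjective p2 := top_surj.comp top_surj
theorem p3_surj : Function.Surjective p3 := top_surj.comp p2_surj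

theorem p2_range : p2.range = ⊤ := MonoidHom.range_eq_top.2 p2_surj
theorem p2_range_sn : p2.range.IsSubnormal := p2_range ▸ IsSubnormal.top

theorem flat_G2 (A B : Subgroup G2) (hA : Atom A) (hB : Atom B) : Nz A B :=
  flat_of_none no_atom_D8 A B hA hB

/-- the support of the distinguished point -/
def Supp (ψ : I1) : Prop := ψ 2 = none ∧ ψ 3 = none ∧ ψ 1 ≠ none

open Classical in
/-- the distinguished point -/
noncomputable def φ0 : I0 := fun ψ => if Supp ψ then some 0 else none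

theorem φ0_ne {ψ : I1} : φ0 ψ ≠ none ↔ Supp ψ := by
  unfold φ0
  split_ifs with h <;> simp [h]

/-- the distinguished atom -/
noncomputable def x0 : Subgroup G0 := Sc G1 φ0

theorem atom_x0 : Atom x0 := atom_Sc φ0

theorem exists_mid (ψ : I1) : ∃ T : Subgroup G0, Atom T ∧ ¬ T ≤ p1.ker ∧ T.map p1 = Sc G2 ψ :=
  exists_lift p1 (atom_Sc ψ) (by
    rw [MonoidHom.range_eq_top.2 (show Function.Surjective p1 from top_surj)]; exact le_top)

/-- the middle layer of atoms -/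
noncomputable def mid (ψ : I1) : Subgroup G0 := (exists_mid ψ).choose

theorem atom_mid (ψ : I1) : Atom (mid ψ) := (exists_mid ψ).choose_spec.1
theorem mid_not_le (ψ : I1) : ¬ mid ψ ≤ p1.ker := (exists_mid ψ).choose_spec.2.1
theorem map_mid (ψ : I1) : (mid ψ).map p1 = Sc G2 ψ := (exists_mid ψ).choose_spec.2.2

theorem mid_inj {ψ ψ' : I1} (h : mid ψ = mid ψ') : ψ = ψ' :=
  eq_of_Sc_le (H := G2) (by rw [← map_mid, ← map_mid, h])

theorem cj_mid (g : G0) (ψ : I1) : cj g (mid ψ) = mid (p2 g • ψ) := by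
  refine ((atom_mid ψ).cj g).eq_of_map_eq (atom_mid _) p1 (cj_not_le (mid_not_le ψ) g) ?_
  rw [map_cj, map_mid, map_mid, cj_Sc]
  rfl

theorem not_nz_x0 {T : Subgroup G0} : ¬ Nz T x0 ↔ ∃ s ∈ T.map p1, s • φ0 ≠ φ0 := by
  unfold x0
  rw [not_nz_Sc]
  constructor
  · rintro ⟨t, ht, h⟩
    exact ⟨_, ⟨t, ht, rfl⟩, h⟩
  · rintro ⟨_, ⟨t, ht, rfl⟩, h⟩
    exact ⟨t, ht, h⟩

theorem not_nz_mid {j : Subgroup G0} {ψ : I1} :
    ¬ Nz j (mid ψ) ↔ ∃ s ∈ j.map p2, s • ψ ≠ ψ := by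
  rw [nz_iff]
  push Not
  constructor
  · rintro ⟨t, ht, h⟩
    rw [cj_mid] at h
    exact ⟨_, ⟨t, ht, rfl⟩, fun h' => h (by rw [h'])⟩
  · rintro ⟨_, ⟨t, ht, rfl⟩, h⟩
    exact ⟨t, ht, fun h' => h (mid_inj (by rw [← cj_mid, h']))⟩

theorem rel_mid {j : Subgroup G0} {ψ ψ' : I1} :
    Rel j (mid ψ) (mid ψ') ↔ ∃ s ∈ j.map p2, s • ψ = ψ' := by
  constructor
  · rintro ⟨t, ht, h⟩
    rw [cj_mid] at h
    exact ⟨_, ⟨t, ht, rfl⟩, mid_inj h⟩
  · rintro ⟨_, ⟨t, ht, rfl⟩, h⟩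
    exact ⟨t, ht, by rw [cj_mid, h]⟩

theorem Lam.eq_mid {j T : Subgroup G0} (hj : Atom j) (h : Lam x0 j T) : ∃ ψ, T = mid ψ := by
  have hk : ¬ T ≤ p1.ker := fun h' => h.2.1 ((nz_ker_Sc φ0).mono h')
  have hjk : ¬ j ≤ p1.ker := fun h' => hk ((h.le' hj.sn).trans h')
  obtain ⟨ψ, hψ⟩ := (hj.map p1 top_range_sn hjk).eq_Sc_of_flat flat_G2
    (h.1.map p1 top_range_sn hk) fun h' => h.2.2 ((h.1.nz_map_iff p1 hk j).1 h')
  exact ⟨ψ, h.1.eq_of_map_eq (atom_mid ψ) p1 hk (by rw [hψ, map_mid])⟩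

theorem lam_mid {j : Subgroup G0} {k : Fin 4} (hk : j.map p2 = Sc D8 k) {ψ : I1} :
    Lam x0 j (mid ψ) ↔ Supp ψ ∧ ψ k ≠ none := by
  unfold Lam
  rw [not_nz_x0, not_nz_mid, map_mid, hk, Sc_moves_iff, Sc_moves_iff, φ0_ne]
  exact ⟨fun h => h.2, fun h => ⟨atom_mid ψ, h⟩⟩

theorem Lam.not_le_p2 {j T : Subgroup G0} (hj : Atom j) (h : Lam x0 j T) : ¬ j ≤ p2.ker := by
  obtain ⟨ψ, rfl⟩ := h.eq_mid hj
  obtain ⟨_, ⟨t, ht, rfl⟩, hne⟩ := not_nz_mid.1 h.2.2
  intro hle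
  have : p2 t = 1 := hle ht
  rw [this, one_smul] at hne
  exact hne rfl

/-- points of the support -/
def pt (a : Option (Fin 5)) (b : Fin 5) : I1 := ![a, some b, none, none]

theorem supp_pt (a : Option (Fin 5)) (b : Fin 5) : Supp (pt a b) := ⟨rfl, rfl, by simp [pt]⟩

theorem frame_zero {j : Subgroup G0} {w : Fin 5 → Subgroup G0} (hj : Atom j)
    (hfr : Frame x0 j w) : j.map p2 = Sc D8 0 := by
  obtain ⟨k, hk⟩ := (hj.map p2 p2_range_sn ((hfr.lam 0).not_le_p2 hj)).eq_Sc_of_none no_atom_D8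
  obtain ⟨ψ, hψ⟩ := (hfr.lam 0).eq_mid hj
  have h0 := hfr.lam 0
  rw [hψ, lam_mid hk] at h0
  obtain ⟨⟨h2, h3, -⟩, hk'⟩ := h0
  have hcases : k = 0 ∨ k = 1 ∨ k = 2 ∨ k = 3 := by clear * -; revert k; decide
  rcases hcases with rfl | rfl | rfl | rfl
  · exact hk
  · exfalso
    have h4 : ∀ a : Option (Fin 5), ∃ i, Rel j (w i) (mid (pt a 0)) := fun a =>
      hfr.surj _ ((lam_mid hk).2 ⟨supp_pt a 0, by simp [pt]⟩)
    choose c hc using h4
    obtain ⟨a, a', hne, he⟩ := Fintype.exists_ne_map_eq_of_card_lt c (by simp)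
    have h5 := (hc a).symm.trans (he ▸ hc a')
    rw [rel_mid, hk] at h5
    obtain ⟨s, hs, hs'⟩ := h5
    have h6 := Sc_smul_ne hs (pt a 0) (b := 0) (by decide)
    rw [hs'] at h6
    exact hne h6.symm
  · exact absurd h2 hk'
  · exact absurd h3 hk'

theorem ext4 {ψ ψ' : I1} (h1 : ψ 1 = ψ' 1) (h : Supp ψ) (h' : Supp ψ') :
    ∀ b : Fin 4, b ≠ 0 → ψ b = ψ' b := by
  intro b hb
  have hcases : b = 0 ∨ b = 1 ∨ b = 2 ∨ b = 3 := by clear * -; revert b; decide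
  rcases hcases with rfl | rfl | rfl | rfl
  · exact absurd rfl hb
  · exact h1
  · rw [h.1, h'.1]
  · rw [h.2.1, h'.2.1]

theorem supp_smul {s : G2} (hs : s ∈ Sc D8 (1 : Fin 4)) {ψ : I1} (h : Supp ψ) : Supp (s • ψ) := by
  refine ⟨by rw [Sc_smul_ne hs ψ (by decide), h.1], by rw [Sc_smul_ne hs ψ (by decide), h.2.1], ?_⟩
  obtain ⟨c, hc⟩ := Option.ne_none_iff_exists'.1 h.2.2
  rw [Sc_smul_self hs, hc]
  simp

theorem partner_one {j j' : Subgroup G0} {w : Fin 5 → Subgroup G0} (hj : Atom j)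
    (hfr : Frame x0 j w) (hj' : j'.map p2 = Sc D8 1) : Partner j j' w := by
  have hk := frame_zero hj hfr
  choose ψ hψ using fun i => (hfr.lam i).eq_mid hj
  have hl : ∀ i, Supp (ψ i) ∧ ψ i 0 ≠ none := fun i => (lam_mid hk).1 (hψ i ▸ hfr.lam i)
  have hrel : ∀ {α β : I1}, Supp α → α 0 ≠ none → Supp β → β 0 ≠ none → α 1 = β 1 →
      Rel j (mid α) (mid β) := by
    intro α β h1 h2 h3 h4 h5
    rw [rel_mid, hk]
    exact exists_Sc_send (ext4 h5 h1 h3) h2 h4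
  constructor
  · intro σ hσ
    choose b hb using fun i => Option.ne_none_iff_exists'.1 (hl i).1.2.2
    have hbi : Function.Injective b := by
      intro i i' h
      refine hfr.inj i i' ?_
      rw [hψ i, hψ i']
      exact hrel (hl i).1 (hl i).2 (hl i').1 (hl i').2 (by rw [hb, hb, h])
    let β : Equiv.Perm (Fin 5) := Equiv.ofBijective b (Finite.injective_iff_bijective.1 hbi)
    have hβ : ∀ i, β i = b i := fun _ => rfl
    let s : A5 := ⟨β * σ * β⁻¹, (inferInstance : (alternatingGroup (Fin 5)).Normal).conj_mem σ hσ β⟩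
    have hs : emb D8 (1 : Fin 4) s ∈ j'.map p2 := hj' ▸ emb_mem 1 s
    obtain ⟨h, hh, he⟩ := hs
    refine ⟨h, hh, fun i => ?_⟩
    rw [hψ i, hψ (σ i), cj_mid, he]
    refine hrel (supp_smul (emb_mem 1 s) (hl i).1) ?_ (hl _).1 (hl _).2 ?_
    · rw [Sc_smul_ne (emb_mem 1 s) _ (by decide)]
      exact (hl i).2
    · rw [Sc_smul_self (emb_mem 1 s), emb_left_self, hb, hb, ← hβ, ← hβ]
      show some ((β * σ * β⁻¹) (β i)) = some (β (σ i))
      simp
  · intro h hh i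
    have hs : p2 h ∈ Sc D8 (1 : Fin 4) := hj' ▸ ⟨h, hh, rfl⟩
    obtain ⟨i', hi'⟩ := hfr.surj (mid (p2 h • ψ i)) ((lam_mid hk).2 ⟨supp_smul hs (hl i).1, by
      rw [Sc_smul_ne hs _ (by decide)]; exact (hl i).2⟩)
    exact ⟨i', by rw [hψ i, cj_mid]; exact hi'.symm⟩

theorem map_cj_zero {j : Subgroup G0} (hk : j.map p2 = Sc D8 0) (g : G0) :
    (cj g j).map p2 = Sc D8 (p3 g • (0 : Fin 4)) := by
  rw [map_cj, hk, cj_Sc]
  rfl

theorem good_x0 (k : Fin 4) (hk : k = 0 ∨ k = 1) : ¬ BadIn ((Rf k).comap p3) x0 := by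
  rintro ⟨j, w, g, hj, hfr, hg, hne, hnp⟩
  have h0 := frame_zero hj hfr
  have h1 := map_cj_zero h0 g
  have h2 : p3 g • (0 : Fin 4) = 0 ∨ p3 g • (0 : Fin 4) = 1 := by
    have h3 : p3 g = 1 ∨ p3 g = el true k := hg
    rcases hk with rfl | rfl <;> rcases h3 with h | h <;> rw [h] <;> decide
  rcases h2 with h | h
  · apply hne
    refine (hj.eq_of_map_eq (hj.cj g) p2 ((hfr.lam 0).not_le_p2 hj) ?_).symm
    rw [h1, h, h0]
  · exact hnp (partner_one hj hfr (by rw [h1, h]))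

theorem bad_x0 : BadIn ⊤ x0 := by
  obtain ⟨j, hj, -, hk⟩ := exists_lift p2 (atom_Sc (H := D8) (0 : Fin 4)) (p2_range ▸ le_top)
  obtain ⟨g, hg⟩ := p3_surj (el false 2)
  have h1 := map_cj_zero hk g
  have h2 : p3 g • (0 : Fin 4) = 2 := by rw [hg]; decide
  rw [h2] at h1
  have hinj : ∀ i i', Rel j (mid (pt (some 0) i)) (mid (pt (some 0) i')) → i = i' := by
    intro i i' h
    rw [rel_mid, hk] at h
    obtain ⟨s, hs, hs'⟩ := h
    have h6 := Sc_smul_ne hs (pt (some 0) i) (b := 1) (by decide)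
    rw [hs'] at h6
    exact (Option.some_injective _ h6).symm
  refine ⟨j, fun i => mid (pt (some 0) i), g, hj, ⟨fun i => ?_, hinj, fun T hT => ?_⟩,
    mem_top g, fun h => ?_, fun h => ?_⟩
  · exact (lam_mid hk).2 ⟨supp_pt _ _, by simp [pt]⟩
  · obtain ⟨ψ, rfl⟩ := hT.eq_mid hj
    obtain ⟨h3, h4⟩ := (lam_mid hk).1 hT
    obtain ⟨c, hc⟩ := Option.ne_none_iff_exists'.1 h3.2.2
    refine ⟨c, ?_⟩
    rw [rel_mid, hk]
    exact exists_Sc_send (ext4 hc.symm (supp_pt _ _) h3) (by simp [pt]) h4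
  · rw [h, hk] at h1
    exact absurd (eq_of_Sc_le h1.le) (by decide)
  · obtain ⟨σ, hσ, hσ0⟩ := exists_three
    obtain ⟨a, ha, ha'⟩ := h.alt σ hσ
    have hs : p2 a ∈ Sc D8 (2 : Fin 4) := h1 ▸ ⟨a, ha, rfl⟩
    have h3 : p2 a • pt (some 0) 0 = pt (some 0) 0 := by
      by_contra hcon
      exact Sc_moves_iff.1 ⟨_, hs, hcon⟩ rfl
    have h4 := ha' 0
    rw [cj_mid, h3] at h4
    exact hσ0 (hinj _ _ h4).symm

theorem not_le_bad (k : Fin 4) (hk : k = 0 ∨ k = 1) (x : Subgroup G0) (hx : Atom x)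
    (hb : BadIn ((Rf k).comap p3) x) : ¬ x0 ≤ x := by
  intro hle
  obtain ⟨j, w, g, hj, hfr, h⟩ := hb
  obtain ⟨φ, rfl⟩ := eq_Sc_of_lam (not_lam_of_flat flat_G2) hx hj (hfr.lam 0)
  obtain rfl : φ0 = φ := eq_of_Sc_le hle
  exact good_x0 k hk ⟨j, w, g, hj, hfr, h⟩

theorem UV_sup : (Rf 1).comap p3 ⊔ (Rf 0).comap p3 = ⊤ := by
  rw [comap_sup_eq _ _ _ p3_surj, Rf_sup, comap_top]

theorem counter :
    (resid ↥((Rf 1).comap p3 ⊔ (Rf 0).comap p3)).map ((Rf 1).comap p3 ⊔ (Rf 0).comap p3).subtype ≠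
      (resid ((Rf 1).comap p3)).map ((Rf 1).comap p3).subtype ⊔
        (resid ((Rf 0).comap p3)).map ((Rf 0).comap p3).subtype :=
  resid_ne ((sn_Rf 1).comap p3) ((sn_Rf 0).comap p3) (UV_sup ▸ IsSubnormal.top) atom_x0
    (UV_sup ▸ bad_x0) (not_le_bad 1 (Or.inr rfl)) (not_le_bad 0 (Or.inl rfl))

theorem chain {G : Type} [Group G] {U W : Subgroup G} (hU : U.IsSubnormal) (hW : W = ⊤) :
    ∃ n : ℕ, ∃ c : ℕ → Subgroup G, c 0 = U ∧ c n = W ∧
      ∀ i < n, c i ≤ c (i + 1) ∧ ((c i).subgroupOf (c (i + 1))).Normal := by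
  obtain ⟨n, c, h1, h2, h3, h4⟩ := hU.exists_chain
  exact ⟨n, c, h3, hW ▸ h4, fun i _ => ⟨h1 (Nat.le_succ i), h2 i⟩⟩

end Pool.Agent.P.MP_0f752e_al
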